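import Pool.Agent.Y714.KE.Bas
import Pool.Agent.Y714.KE.Cusp

set_option autoImplicit false
set_option linter.unusedSectionVars false
set_option linter.unusedVariables false
set_option linter.unusedSimpArgs false

/-! helper259, job KE-GEJ: lattices with small projection in a cusp cell. -/

namespace Pool.Agent.Y259.KE

open Pool.Agent.Y714.KF Pool.Agent.Y714.KE
open NumberField FractionalIdeal Module Finset
open scoped nonZeroDivisors

variable {s : Type} [Fintype s] [DecidableEq s] {K : s → Type} [∀ i, Field (K i)]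
  [∀ i, NumberField (K i)]

/-- divisibility of a projection by `p` is a content failure -/
theorem cf_of_dvd {p : ℕ} (hp : p.Prime) {I : FA K} {M : Submodule ℤ (Al K)} {j : s}
    (hj : finrank ℚ (K j) = 1)
    (h : ∀ x ∈ M, x j ∈ sp (p : K j) * I j) : Cf p I M := by
  have hne : Ideal.span {(p : 𝓞 (K j))} ≠ ⊤ := by
    intro htop
    have h2 : sp (p : K j) = 1 := by
      have h3 : sp (p : K j) = ((Ideal.span {(p : 𝓞 (K j))} : Ideal (𝓞 (K j))) : FI (K j)) := by
        rw [coeIdeal_span_singleton]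
        simp
      rw [h3, htop]
      simp
    have h4 := nm_natCast (K := K j) p
    rw [h2, hj, pow_one] at h4
    simp only [nm, map_one] at h4
    have h5 := hp.one_lt
    have h6 : (p : ℚ) = 1 := h4.symm
    have h7 : p = 1 := by exact_mod_cast h6
    omega
  obtain ⟨q, hq, hle⟩ := Ideal.exists_le_maximal _ hne
  have hpq : (p : 𝓞 (K j)) ∈ q := hle (Ideal.mem_span_singleton_self _)
  refine ⟨j, q, hq.isPrime, hpq, fun x hx => ?_⟩
  have h1 : sp (p : K j) ≤ (q : FI (K j)) := by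
    rw [sp_le, mem_coeIdeal]
    exact ⟨_, hpq, by simp⟩
  have h2 : sp (p : K j) * I j ≤ (q : FI (K j)) * I j := by gcongr
  exact h2 (h x hx)

theorem gej : S_GEJ K := by
  classical
  intro hodd hn I b hb κ i₀ j hj
  obtain ⟨C, hC0, hC⟩ := exists_br_boundY (K := K) hodd hn κ
  -- the component `j`
  have hlt : 0 < finrank ℚ (K j) := by omega
  set l0 : Fin (finrank ℚ (K j)) := ⟨0, hlt⟩ with hl0
  have hall : ∀ l : Fin (finrank ℚ (K j)), l = l0 := fun l => by
    apply Fin.ext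
    have := l.2
    simp only [hl0]
    omega
  set β : K j := b j l0 with hβ
  have hβ0 : β ≠ 0 := (b j).ne_zero l0
  have hel : ∀ z : Fin (finrank ℚ (K j)) → ℤ, el (b j) z = (z l0 : K j) * β := by
    intro z
    rw [el, Fintype.sum_eq_single l0]
    intro l hl
    exact absurd (hall l) hl
  have hcard : Fintype.card (K j →+* ℂ) = 1 := by rw [Embeddings.card, hj]
  obtain ⟨σ0⟩ : Nonempty (K j →+* ℂ) := Fintype.card_pos_iff.1 (by omega)
  have hσβ : 0 < ‖σ0 β‖ := norm_pos_iff.2 ((map_ne_zero σ0).2 hβ0)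
  refine ⟨dg K * C ^ 2 / ‖σ0 β‖ ^ 2, by
    have : (0 : ℝ) < dg K := by exact_mod_cast (by omega : 0 < dg K)
    positivity, ?_⟩
  intro y N hN M hM hLoc hproj
  obtain ⟨P, rfl, hcn, hND, hNZ, hui, hpm⟩ := hM
  have hn2 : 2 ≤ dg K := by omega
  -- the projections
  have hmem : ∀ x : K j, x ∈ (I j : FI (K j)) → ∃ a : ℤ, x = (a : K j) * β := by
    intro x hx
    obtain ⟨z, hz⟩ := (hb j x).1 hx
    exact ⟨z l0, by rw [hz, hel]⟩
  have hβI : β ∈ (I j : FI (K j)) := by
    refine (hb j β).2 ⟨fun _ => 1, ?_⟩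
    rw [hel]
    simp
  obtain ⟨hP1, hP2⟩ := ct_le.1 (hcn j)
  obtain ⟨a, ha⟩ := hmem _ hP1
  obtain ⟨c, hc⟩ := hmem _ hP2
  have ha' : P.1 j = (a : K j) * β := ha
  have hc' : P.2 j = (c : K j) * β := hc
  have hac : a ≠ 0 ∨ c ≠ 0 := by
    rcases hND.ne hn2 j with h | h
    · left
      rintro rfl
      apply h
      rw [ha']
      simp
    · right
      rintro rfl
      apply h
      rw [hc']
      simp
  set m : ℕ := Int.gcd a c with hm
  have hm0 : 0 < m := Int.gcd_pos_iff.2 hac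
  obtain ⟨a', ha1⟩ : (m : ℤ) ∣ a := Int.gcd_dvd_left a c
  obtain ⟨c', hc1⟩ : (m : ℤ) ∣ c := Int.gcd_dvd_right a c
  set u : ℤ := Int.gcdA a c with hu
  set v : ℤ := Int.gcdB a c with hv
  have hbez : (m : ℤ) = a * u + c * v := Int.gcd_eq_gcd_ab a c
  have hbez' : a' * u + c' * v = 1 := by
    have h1 : (m : ℤ) * (a' * u + c' * v) = m * 1 := by
      rw [mul_one]
      conv_rhs => rw [hbez, ha1, hc1]
      ring
    exact mul_left_cancel₀ (by exact_mod_cast hm0.ne') h1
  -- the new basis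
  set R : Al K × Al K := glz c' (-a') u v P with hR
  have hLT : LT R = LT P := LT_glz c' (-a') u v (Or.inl (by linarith)) P
  have hR1 : R.1 j = 0 := by
    have h1 : R.1 = c' • P.1 + (-a') • P.2 := rfl
    rw [h1, Pi.add_apply, Pi.smul_apply, Pi.smul_apply, ha', hc', zsmul_eq_mul, zsmul_eq_mul,
      ha1, hc1]
    push_cast
    ring
  have hR2 : R.2 j = (m : K j) * β := by
    have h1 : R.2 = u • P.1 + v • P.2 := rfl
    rw [h1, Pi.add_apply, Pi.smul_apply, Pi.smul_apply, ha', hc', zsmul_eq_mul, zsmul_eq_mul]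
    have h2 : (m : K j) = (a : K j) * u + c * v := by exact_mod_cast congrArg (Int.cast : ℤ → K j) hbez
    rw [h2]
    ring
  obtain ⟨hNDR, hpmR, hccR, huiR, -⟩ := LT_inv hodd hn2 hND hLT.symm
  have hNZR : NZ κ (vc R) := by
    intro l
    rw [hccR]
    exact hNZ l
  have huiR' : ∀ i, ui (vc R) i ≤ y i + 1 := by
    intro i
    rw [huiR]
    exact ui_le hodd hn hND hui hpm i
  have hbr := (hC y R hNDR hNZR huiR').1
  -- the index is large
  have hmN : N < m := by
    have hm1 : m ≠ 1 := by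
      intro h1
      refine hproj R.2 ?_ l0 ?_
      · rw [← hLT]
        exact snd_mem_LT R
      · rw [hR2, h1]
        simp [hβ]
    obtain ⟨p, hp, hpm'⟩ := Nat.exists_prime_and_dvd hm1
    by_contra hle
    have hpN : (p : ℝ) ≤ N := by
      have h1 : (p : ℝ) ≤ m := by exact_mod_cast Nat.le_of_dvd hm0 hpm'
      exact h1.trans (not_lt.1 hle)
    refine (hLoc p hp hpN).1 (cf_of_dvd hp hj fun x hx => ?_)
    obtain ⟨t1, t2, rfl⟩ := mem_LT.1 hx
    obtain ⟨k, hk⟩ := hpm'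
    have h1 : (t1 • P.1 + t2 • P.2) j = (p : K j) * (((k * (t1 * a' + t2 * c') : ℤ) : K j) * β) := by
      rw [Pi.add_apply, Pi.smul_apply, Pi.smul_apply, ha', hc', zsmul_eq_mul, zsmul_eq_mul,
        ha1, hc1, hk]
      push_cast
      ring
    rw [h1, ← sp_le, sp_mul]
    refine mul_le_mul' le_rfl ?_
    exact sp_le.2 (intCast_mul_mem _ hβI)
  refine ⟨R.1, ?_, ?_, ?_⟩
  · rw [← hLT]
    exact fst_mem_LT R
  · intro h0
    have h1 := hNDR.ind hn2 1 0 (by rw [h0]; simp)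
    exact one_ne_zero h1.1
  -- the bound
  have hm0' : (0 : ℝ) < m := by exact_mod_cast hm0
  have key : ∀ i, Real.exp (-(2 * y i)) * qf (R.1 i) ≤
      finrank ℚ (K i) * (C ^ 2 * Real.exp (2 * y j) / (m ^ 2 * ‖σ0 β‖ ^ 2)) := by
    intro i
    by_cases hij : i = j
    · subst hij
      rw [hR1]
      have h1 : qf (0 : K i) = 0 := by simp [qf]
      rw [h1, mul_zero]
      positivity
    · have h1 : ∀ σ : K i →+* ℂ, Real.exp (-(2 * y i)) * ‖σ (R.1 i)‖ ^ 2 ≤
          C ^ 2 * Real.exp (2 * y j) / (m ^ 2 * ‖σ0 β‖ ^ 2) := by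
        intro σ
        have h2 := hbr ⟨i, σ⟩ ⟨j, σ0⟩
        have h3 : br (vc R ⟨i, σ⟩) (vc R ⟨j, σ0⟩) = σ (R.1 i) * ((m : ℂ) * σ0 β) := by
          simp only [br, vc]
          rw [hR1, hR2, map_zero, map_mul, map_natCast]
          ring
        rw [h3, norm_mul, norm_mul, Complex.norm_natCast] at h2
        simp only at h2
        have h4 : (‖σ (R.1 i)‖ * (m * ‖σ0 β‖)) ^ 2 ≤ (C * Real.exp (y i + y j)) ^ 2 :=
          pow_le_pow_left₀ (by positivity) h2 2
        rw [le_div_iff₀ (by positivity)]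
        have h5 : Real.exp (y i + y j) ^ 2 = Real.exp (2 * y i) * Real.exp (2 * y j) := by
          rw [← Real.exp_add, ← Real.exp_nat_mul]
          congr 1
          push_cast
          ring
        have h6 : Real.exp (-(2 * y i)) * Real.exp (2 * y i) = 1 := by
          rw [← Real.exp_add]; simp
        calc Real.exp (-(2 * y i)) * ‖σ (R.1 i)‖ ^ 2 * (m ^ 2 * ‖σ0 β‖ ^ 2)
            = Real.exp (-(2 * y i)) * (‖σ (R.1 i)‖ * (m * ‖σ0 β‖)) ^ 2 := by ring
          _ ≤ Real.exp (-(2 * y i)) * (C * Real.exp (y i + y j)) ^ 2 := by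
              gcongr
          _ = C ^ 2 * Real.exp (2 * y j) * (Real.exp (-(2 * y i)) * Real.exp (2 * y i)) := by
              rw [mul_pow, h5]; ring
          _ = C ^ 2 * Real.exp (2 * y j) := by rw [h6, mul_one]
      rw [qf, mul_sum]
      calc ∑ σ : K i →+* ℂ, Real.exp (-(2 * y i)) * ‖σ (R.1 i)‖ ^ 2
          ≤ ∑ σ : K i →+* ℂ, C ^ 2 * Real.exp (2 * y j) / (m ^ 2 * ‖σ0 β‖ ^ 2) :=
            sum_le_sum fun σ _ => h1 σ
        _ = _ := by
            rw [sum_const, card_univ, Embeddings.card, nsmul_eq_mul]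
  have h7 : QY y R.1 ≤ dg K * (C ^ 2 * Real.exp (2 * y j) / (m ^ 2 * ‖σ0 β‖ ^ 2)) := by
    rw [QY, dg]
    push_cast
    rw [sum_mul]
    exact sum_le_sum fun i _ => key i
  refine h7.trans ?_
  have hN0 : 0 < N := by linarith
  have h8 : C ^ 2 * Real.exp (2 * y j) / (m ^ 2 * ‖σ0 β‖ ^ 2) ≤
      C ^ 2 * Real.exp (2 * y j) / (N ^ 2 * ‖σ0 β‖ ^ 2) := by
    gcongr
  calc (dg K : ℝ) * (C ^ 2 * Real.exp (2 * y j) / (m ^ 2 * ‖σ0 β‖ ^ 2))
      ≤ dg K * (C ^ 2 * Real.exp (2 * y j) / (N ^ 2 * ‖σ0 β‖ ^ 2)) := by gcongr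
    _ = dg K * C ^ 2 / ‖σ0 β‖ ^ 2 * Real.exp (2 * y j) / N ^ 2 := by
        field_simp

end Pool.Agent.Y259.KE
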