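import Pool.Agent.Y714.KE.Bas

set_option autoImplicit false
set_option linter.unusedSectionVars false
set_option linter.unusedVariables false
set_option linter.unusedSimpArgs false

/-! helper259, job KE-IDX: the index of the lattice of monomials for etale algebras. -/

namespace Pool.Agent.Y259.KE

open Pool.Agent.Y714.KF Pool.Agent.Y714.KE
open NumberField FractionalIdeal Module Finset
open scoped nonZeroDivisors

variable {s : Type} [Fintype s] [DecidableEq s] {K : s → Type} [∀ i, Field (K i)]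
  [∀ i, NumberField (K i)]

/-- the homomorphisms as homomorphisms of the algebra -/
noncomputable def ev (e : Em K) : Al K →+* ℂ := e.2.comp (Pi.evalRingHom K e.1)

theorem ev_apply (e : Em K) (x : Al K) : ev e x = e.2 (x e.1) := rfl

theorem ev_inj : Function.Injective (ev : Em K → (Al K →+* ℂ)) := by
  rintro ⟨i, σ⟩ ⟨j, τ⟩ h
  have hij : i = j := by
    by_contra hne
    have h1 := RingHom.congr_fun h (Pi.single i 1)
    rw [ev_apply, ev_apply] at h1
    simp only [Pi.single_eq_same, map_one] at h1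
    rw [Pi.single_eq_of_ne (Ne.symm hne), map_zero] at h1
    exact one_ne_zero h1
  subst hij
  congr 1
  ext x
  have h1 := RingHom.congr_fun h (Pi.single i x)
  rw [ev_apply, ev_apply] at h1
  simpa using h1

theorem ev_indep : LinearIndependent ℂ (fun e : Em K => (fun x => ev e x : Al K → ℂ)) := by
  have h := linearIndependent_monoidHom (Al K) ℂ
  exact h.comp (fun e : Em K => ((ev e : Al K →+* ℂ) : Al K →* ℂ))
    (fun e f hef => ev_inj (RingHom.coe_monoidHom_injective hef))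

theorem det_ev_ne {n : ℕ} (W : Basis (Fin n) ℚ (Al K)) (e2 : Fin n ≃ Em K) :
    (Matrix.of fun k j => ev (e2 k) (W j) : Matrix (Fin n) (Fin n) ℂ).det ≠ 0 := by
  classical
  rw [← isUnit_iff_ne_zero, ← Matrix.isUnit_iff_isUnit_det,
    ← Matrix.linearIndependent_rows_iff_isUnit, Fintype.linearIndependent_iff]
  intro g hg k
  have h1 : ∀ x : Al K, ∑ k, g k * ev (e2 k) x = 0 := by
    intro x
    have h2 : ∀ k, ev (e2 k) x = ∑ j, ((W.repr x j : ℚ) : ℂ) * ev (e2 k) (W j) := by
      intro k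
      conv_lhs => rw [← W.sum_repr x]
      rw [map_sum]
      refine sum_congr rfl fun j _ => ?_
      rw [map_rat_smul, Rat.smul_def]
    simp_rw [h2, mul_sum]
    rw [sum_comm]
    refine sum_eq_zero fun j _ => ?_
    have h3 : ∑ k, g k * ev (e2 k) (W j) = 0 := by
      have := congrFun hg j
      simpa [Finset.sum_apply] using this
    have h4 : ∀ k, g k * (((W.repr x j : ℚ) : ℂ) * ev (e2 k) (W j)) =
        ((W.repr x j : ℚ) : ℂ) * (g k * ev (e2 k) (W j)) := fun k => by ring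
    simp_rw [h4]
    rw [← mul_sum, h3, mul_zero]
  have h5 := ev_indep (K := K).comp e2 e2.injective
  rw [Fintype.linearIndependent_iff] at h5
  refine h5 g ?_ k
  funext x
  simpa [Finset.sum_apply] using h1 x

theorem E_eq (b : Bs K) (z : Ix K → ℤ) :
    (fun i => el (b i) (fun l => z ⟨i, l⟩) : Al K) = ∑ j, z j • Pi.basis b j := by
  funext i
  rw [Finset.sum_apply]
  simp only [Pi.smul_apply, Pi.basis_apply]
  rw [Fintype.sum_sigma, Finset.sum_eq_single i]
  · simp [el, zsmul_eq_mul]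
  · intro i' _ hne
    refine Finset.sum_eq_zero fun l _ => ?_
    rw [Pi.single_eq_of_ne (Ne.symm hne), smul_zero]
  · intro h; exact absurd (mem_univ _) h

theorem span_iff {A : FU K} {b : Bs K} (hb : IsB A b) (x : Al K) :
    (∀ i, x i ∈ (A i : FI (K i))) ↔ ∃ z : Ix K → ℤ, x = ∑ j, z j • Pi.basis b j := by
  constructor
  · intro h
    choose z hz using fun i => (hb i (x i)).1 (h i)
    refine ⟨fun j => z j.1 j.2, ?_⟩
    rw [← E_eq]
    funext i
    exact hz i
  · rintro ⟨z, rfl⟩ i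
    rw [← E_eq]
    exact (hb i _).2 ⟨_, rfl⟩

theorem mon_mem {P : Al K × Al K} {I : FA K} (hP : ∀ i, cn P i ≤ I i) (n k : ℕ) (hk : k ≤ n)
    (i : s) : (P.1 ^ k * P.2 ^ (n - k)) i ∈ I i ^ n := by
  obtain ⟨hP1, hP2⟩ := ct_le.1 (hP i)
  have h1 : sp ((P.1 i) ^ k * (P.2 i) ^ (n - k)) ≤ I i ^ n := by
    rw [sp_mul]
    have h2 : sp ((P.1 i) ^ k) = sp (P.1 i) ^ k := by
      rw [sp, sp, spanSingleton_pow]
    have h3 : sp ((P.2 i) ^ (n - k)) = sp (P.2 i) ^ (n - k) := by
      rw [sp, sp, spanSingleton_pow]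
    rw [h2, h3]
    have h4 : n = k + (n - k) := by omega
    conv_rhs => rw [h4, pow_add]
    exact mul_le_mul' (pow_le_pow_left' (sp_le.2 hP1) _) (pow_le_pow_left' (sp_le.2 hP2) _)
  exact sp_le.1 h1

theorem idx : S_IDX K := by
  classical
  intro I
  set n := dg K with hn
  obtain ⟨b, hb⟩ := exists_bs (K := K) (fun i => I i ^ (n - 1))
  have hcard : Fintype.card (Ix K) = n := by
    rw [hn, dg, Fintype.card_sigma]
    simp
  let e1 : Fin n ≃ Ix K := (Fintype.equivFinOfCardEq hcard).symm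
  let e2 : Fin n ≃ Em K := (Fintype.equivFinOfCardEq card_Em).symm
  let W : Basis (Fin n) ℚ (Al K) := (Pi.basis b).reindex e1.symm
  let S : Matrix (Fin n) (Fin n) ℂ := Matrix.of fun k j => ev (e2 k) (W j)
  have hS : S.det ≠ 0 := det_ev_ne W e2
  have hspan : ∀ x : Al K, (∀ i, x i ∈ (I i : FI (K i)) ^ (n - 1)) ↔
      ∃ z : Fin n → ℤ, x = ∑ j, z j • W j := by
    intro x
    have h0 : (∀ i, x i ∈ (I i : FI (K i)) ^ (n - 1)) ↔
        ∀ i, x i ∈ ((I i ^ (n - 1) : (FI (K i))ˣ) : FI (K i)) := by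
      simp only [Units.val_pow_eq_pow_val]
    rw [h0, span_iff hb]
    constructor
    · rintro ⟨z, rfl⟩
      refine ⟨fun k => z (e1 k), ?_⟩
      simp only [W, Basis.reindex_apply, Equiv.symm_symm]
      exact (Equiv.sum_comp e1 (fun j => z j • Pi.basis b j)).symm
    · rintro ⟨z, rfl⟩
      refine ⟨fun j => z (e1.symm j), ?_⟩
      rw [← Equiv.sum_comp e1]
      simp only [W, Basis.reindex_apply, Equiv.symm_symm, Equiv.symm_apply_apply]
  refine ⟨‖S.det‖, norm_pos_iff.2 hS, fun P hP hNd => ?_⟩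
  have hmon : ∀ k : Fin n, ∀ i, (P.1 ^ (k : ℕ) * P.2 ^ (n - 1 - (k : ℕ))) i ∈
      (I i : FI (K i)) ^ (n - 1) := by
    intro k i
    exact mon_mem hP (n - 1) k (by have := k.2; omega) i
  choose m hm using fun k => (hspan _).1 (hmon k)
  let M : Matrix (Fin n) (Fin n) ℤ := Matrix.of m
  have hPV : Matrix.projVandermonde (fun k => (ev (e2 k)) P.1) (fun k => (ev (e2 k)) P.2) =
      S * (M.map (Int.castRingHom ℂ)).transpose := by
    ext k i
    rw [Matrix.projVandermonde_apply, Matrix.mul_apply]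
    have h1 : ((ev (e2 k)) P.1) ^ (i : ℕ) * ((ev (e2 k)) P.2) ^ ((Fin.rev i : Fin n) : ℕ) =
        (ev (e2 k)) (P.1 ^ (i : ℕ) * P.2 ^ (n - 1 - (i : ℕ))) := by
      rw [map_mul, map_pow, map_pow, Fin.val_rev]
      congr 2
      omega
    rw [h1, hm i, map_sum]
    refine sum_congr rfl fun j _ => ?_
    rw [zsmul_eq_mul, map_mul, map_intCast, mul_comm]
    rfl
  have hdet := congrArg Matrix.det hPV
  rw [Matrix.det_projVandermonde, Matrix.det_mul, Matrix.det_transpose] at hdet
  have hdM : (M.map (Int.castRingHom ℂ)).det = ((M.det : ℤ) : ℂ) := by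
    have := (RingHom.map_det (Int.castRingHom ℂ) M).symm
    simpa using this
  rw [hdM] at hdet
  have hprod : ∏ q ∈ (univ : Finset (Em K)).offDiag, ‖br (vc P q.1) (vc P q.2)‖ =
      (‖S.det‖ * (M.det.natAbs : ℕ)) ^ 2 := by
    have h1 : ∏ q ∈ (univ : Finset (Em K)).offDiag, ‖br (vc P q.1) (vc P q.2)‖ =
        ∏ q ∈ (univ : Finset (Fin n)).offDiag, ‖br (vc P (e2 q.1)) (vc P (e2 q.2))‖ := by
      refine (prod_nbij' (fun q : Fin n × Fin n => (e2 q.1, e2 q.2))
        (fun q => (e2.symm q.1, e2.symm q.2)) ?_ ?_ ?_ ?_ ?_).symm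
      · intro q hq
        rw [mem_offDiag] at hq ⊢
        exact ⟨mem_univ _, mem_univ _, fun h => hq.2.2 (e2.injective h)⟩
      · intro q hq
        rw [mem_offDiag] at hq ⊢
        exact ⟨mem_univ _, mem_univ _, fun h => hq.2.2 (e2.symm.injective h)⟩
      · intro q _; simp
      · intro q _; simp
      · intro q _; rfl
    rw [h1, prod_offDiag_of_lt (fun i j => ‖br (vc P (e2 i)) (vc P (e2 j))‖)
      (fun i j => norm_br_swap _ _)]
    congr 1
    have h2 := congrArg norm hdet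
    rw [norm_mul, norm_prod] at h2
    have h3 : ‖((M.det : ℤ) : ℂ)‖ = (M.det.natAbs : ℕ) := by
      rw [Complex.norm_intCast, Nat.cast_natAbs, Int.cast_abs]
    rw [h3] at h2
    rw [← h2]
    refine prod_congr rfl fun i _ => ?_
    rw [norm_prod]
    refine prod_congr rfl fun j _ => ?_
    rw [← norm_neg]
    congr 1
    simp only [br, vc, ev_apply]
    ring
  refine ⟨M.det.natAbs, ?_, hprod, ?_⟩
  · intro h0
    rw [h0] at hprod
    simp only [Nat.cast_zero, mul_zero, ne_eq, OfNat.ofNat_ne_zero, not_false_eq_true,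
      zero_pow] at hprod
    rw [prod_eq_zero_iff] at hprod
    obtain ⟨q, hq, hq'⟩ := hprod
    exact hNd _ _ (mem_offDiag.1 hq).2.2 (norm_eq_zero.1 hq')
  · intro x hx
    obtain ⟨z, hz⟩ := (hspan x).1 hx
    have key : (M.det : ℤ) • x = ∑ i, (Matrix.vecMul z M.adjugate i : ℤ) •
        (P.1 ^ (i : ℕ) * P.2 ^ (n - 1 - (i : ℕ))) := by
      have h1 : ∀ j, ∑ i, Matrix.vecMul z M.adjugate i * M i j = M.det * z j := by
        intro j
        have h2 : Matrix.vecMul (Matrix.vecMul z M.adjugate) M j = M.det * z j := by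
          rw [Matrix.vecMul_vecMul, Matrix.adjugate_mul, Matrix.vecMul_smul, Matrix.vecMul_one]
          rfl
        rw [← h2]
        rfl
      have h3 : ∑ i, (Matrix.vecMul z M.adjugate i : ℤ) •
          (P.1 ^ (i : ℕ) * P.2 ^ (n - 1 - (i : ℕ))) =
          ∑ j, (∑ i, (Matrix.vecMul z M.adjugate i : ℤ) * M i j) • W j := by
        simp_rw [hm, smul_sum, sum_smul]
        rw [sum_comm]
        refine sum_congr rfl fun j _ => sum_congr rfl fun i _ => ?_
        rw [mul_smul]
        rfl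
      rw [h3, hz, smul_sum]
      refine sum_congr rfl fun j _ => ?_
      rw [h1 j, mul_smul]
    rcases Int.natAbs_eq M.det with h1 | h1
    · refine ⟨fun i => Matrix.vecMul z M.adjugate i, ?_⟩
      rw [← key]
      congr 1
      exact h1.symm
    · refine ⟨fun i => -Matrix.vecMul z M.adjugate i, ?_⟩
      have h2 : ((M.det.natAbs : ℕ) : ℤ) = -(M.det : ℤ) := by omega
      rw [h2, neg_smul, key, ← sum_neg_distrib]
      refine sum_congr rfl fun i _ => ?_
      rw [neg_smul]

theorem pdi : S_PDI K := by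
  classical
  intro p hp hn P J hJ hC D hD
  by_contra hpD
  set n := dg K with hndef
  have hP1 : ∀ i, P.1 i ∈ (J i : FI (K i)) := fun i => (ct_le.1 (hJ i)).1
  have hP2 : ∀ i, P.2 i ∈ (J i : FI (K i)) := fun i => (ct_le.1 (hJ i)).2
  have hJ0 : ∀ i, (J i : FI (K i)) ≠ 0 := fun i => Units.ne_zero _
  set C : FA K := fun i => sp (p : K i) * (J i : FI (K i)) + sp (P.2 i) with hCdef
  set A : FA K := fun i => (J i : FI (K i)) ^ (n - 1) with hA
  have hA0 : ∀ i, A i ≠ 0 := fun i => pow_ne_zero _ (hJ0 i)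
  set L : FA K := fun i => (J i : FI (K i))⁻¹ * C i with hL
  have hCJ : ∀ i, C i ≤ (J i : FI (K i)) := by
    intro i
    change sp (p : K i) * (J i : FI (K i)) + sp (P.2 i) ≤ _
    rw [← sup_eq_add]
    refine sup_le ?_ (sp_le.2 (hP2 i))
    calc sp (p : K i) * (J i : FI (K i)) ≤ 1 * (J i : FI (K i)) := by
          gcongr
          exact sp_natCast_le_one p
      _ = (J i : FI (K i)) := one_mul _
  have hpJC : ∀ i, sp (p : K i) * (J i : FI (K i)) ≤ C i := by
    intro i
    change _ ≤ sp (p : K i) * (J i : FI (K i)) + sp (P.2 i)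
    rw [← sup_eq_add]
    exact le_sup_left
  have hP2C : ∀ i, sp (P.2 i) ≤ C i := by
    intro i
    change _ ≤ sp (p : K i) * (J i : FI (K i)) + sp (P.2 i)
    rw [← sup_eq_add]
    exact le_sup_right
  have hL1 : ∀ i, L i ≤ 1 := fun i => inv_mul_le_one (hJ0 i) (hCJ i)
  have hLA : ∀ i, L i * A i = C i * (J i : FI (K i)) ^ (n - 2) := by
    intro i
    have h1 : n - 1 = (n - 2) + 1 := by omega
    change (J i : FI (K i))⁻¹ * C i * (J i : FI (K i)) ^ (n - 1) = _
    rw [h1, pow_succ]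
    calc (J i : FI (K i))⁻¹ * C i * ((J i : FI (K i)) ^ (n - 2) * (J i : FI (K i))) =
        ((J i : FI (K i))⁻¹ * (J i : FI (K i))) * (C i * (J i : FI (K i)) ^ (n - 2)) := by ring
      _ = _ := by rw [inv_mul_cancel₀ (hJ0 i), one_mul]
  -- the decomposition
  have hcop : IsCoprime (D : ℤ) (p : ℤ) := by
    rw [Nat.isCoprime_iff_coprime]
    exact ((Nat.Prime.coprime_iff_not_dvd hp).2 hpD).symm
  obtain ⟨u, v, huv⟩ := hcop
  have hmemadd : ∀ (i : s) {X : FI (K i)} {a b : K i}, a ∈ X → b ∈ X → a + b ∈ X :=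
    fun i {X} {a b} ha hb => (X : Submodule (𝓞 (K i)) (K i)).add_mem ha hb
  have hdec : ∀ x : Al K, (∀ i, x i ∈ A i) → ∃ m : ℤ, ∀ i,
      x i - (m : K i) * (P.1 i) ^ (n - 1) ∈ L i * A i := by
    intro x hx
    obtain ⟨w, hw⟩ := hD x hx
    have hlt : n - 1 < n := by omega
    refine ⟨u * w ⟨n - 1, hlt⟩, fun i => ?_⟩
    have hwi : (D : K i) * x i = ∑ k : Fin n, (w k : K i) *
        ((P.1 i) ^ (k : ℕ) * (P.2 i) ^ (n - 1 - (k : ℕ))) := by
      have h1 := congrFun hw i
      rw [Finset.sum_apply] at h1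
      simpa [zsmul_eq_mul] using h1
    have huvK : (u : K i) * D + v * p = 1 := by exact_mod_cast congrArg (Int.cast : ℤ → K i) huv
    have h1 : x i = (u : K i) * ((D : K i) * x i) + (p : K i) * ((v : K i) * x i) := by
      linear_combination (-(x i)) * huvK
    have h2 : x i - ((u * w ⟨n - 1, hlt⟩ : ℤ) : K i) * (P.1 i) ^ (n - 1) =
        (∑ k ∈ univ.erase (⟨n - 1, hlt⟩ : Fin n), ((u * w k : ℤ) : K i) *
          ((P.1 i) ^ (k : ℕ) * (P.2 i) ^ (n - 1 - (k : ℕ)))) + (p : K i) * ((v : K i) * x i) := by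
      conv_lhs => rw [h1, hwi]
      rw [mul_sum, ← add_sum_erase univ _ (mem_univ (⟨n - 1, hlt⟩ : Fin n))]
      have h3 : ∀ k : Fin n, (u : K i) * ((w k : K i) *
          ((P.1 i) ^ (k : ℕ) * (P.2 i) ^ (n - 1 - (k : ℕ)))) =
          ((u * w k : ℤ) : K i) * ((P.1 i) ^ (k : ℕ) * (P.2 i) ^ (n - 1 - (k : ℕ))) := by
        intro k; push_cast; ring
      simp_rw [h3]
      simp only [Nat.sub_self, pow_zero, mul_one]
      ring
    rw [h2, hLA i]
    refine hmemadd i ?_ ?_
    · refine (C i * (J i : FI (K i)) ^ (n - 2) : FI (K i)).coeToSubmodule.sum_mem fun k hk => ?_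
      refine intCast_mul_mem _ (sp_le.1 ?_)
      have hin : (k : ℕ) < n - 1 := by
        have h4 : k ≠ ⟨n - 1, hlt⟩ := (mem_erase.1 hk).1
        have h5 : (k : ℕ) ≠ n - 1 := fun h => h4 (Fin.ext h)
        have := k.2
        omega
      have h6 : (P.1 i) ^ (k : ℕ) * (P.2 i) ^ (n - 1 - (k : ℕ)) =
          P.2 i * ((P.1 i) ^ (k : ℕ) * (P.2 i) ^ (n - 2 - (k : ℕ))) := by
        have : n - 1 - (k : ℕ) = (n - 2 - (k : ℕ)) + 1 := by omega
        rw [this, pow_succ]; ring
      rw [h6, sp_mul]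
      refine mul_le_mul' (hP2C i) ?_
      have h7 := mon_mem hJ (n - 2) k (by omega) i
      exact sp_le.2 h7
    · refine sp_le.1 ?_
      rw [sp_mul]
      have h8 : sp ((v : K i) * x i) ≤ A i := sp_le.2 (intCast_mul_mem v (hx i))
      have h9 : A i = (J i : FI (K i)) * (J i : FI (K i)) ^ (n - 2) := by
        change (J i : FI (K i)) ^ (n - 1) = _
        rw [← pow_succ']; congr 1; omega
      calc sp (p : K i) * sp ((v : K i) * x i) ≤
          sp (p : K i) * ((J i : FI (K i)) * (J i : FI (K i)) ^ (n - 2)) := by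
            rw [← h9]; gcongr
        _ = (sp (p : K i) * (J i : FI (K i))) * (J i : FI (K i)) ^ (n - 2) := by ring
        _ ≤ C i * (J i : FI (K i)) ^ (n - 2) := by
            gcongr
            exact hpJC i
  have hα : ∀ i, (P.1 i) ^ (n - 1) ∈ A i := by
    intro i
    refine sp_le.1 ?_
    rw [show sp ((P.1 i) ^ (n - 1)) = sp (P.1 i) ^ (n - 1) by rw [sp, sp, spanSingleton_pow]]
    exact pow_le_pow_left' (sp_le.2 (hP1 i)) _
  have hsmul : ∀ (i : s) {X : FI (K i)} (y : 𝓞 (K i)) {a : K i}, a ∈ X → (y : K i) * a ∈ X :=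
    fun i {X} y {a} ha => by
    have := (X : Submodule (𝓞 (K i)) (K i)).smul_mem y ha
    rwa [Algebra.smul_def] at this
  choose L0 hL0 using fun i => exists_ideal (hL1 i)
  have hOdec : ∀ y : (∀ i, 𝓞 (K i)), ∃ m : ℤ, ∀ i, y i - (m : 𝓞 (K i)) ∈ L0 i := by
    intro y
    obtain ⟨m, hm⟩ := hdec (fun i => (y i : K i) * (P.1 i) ^ (n - 1)) (fun i => hsmul i _ (hα i))
    refine ⟨m, fun i => ?_⟩
    have h1 : sp ((y i : K i) - m) * A i ≤ L i * A i := by
      rw [FractionalIdeal.mul_le]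
      intro a ha x hx
      rw [mem_spanSingleton] at ha
      obtain ⟨z, rfl⟩ := ha
      obtain ⟨m', hm'⟩ := hdec (Pi.single i x) (fun j => by
        by_cases hj : j = i
        · subst hj
          rw [Pi.single_eq_same]
          exact hx
        · rw [Pi.single_eq_of_ne hj]
          exact FractionalIdeal.zero_mem _)
      have hm'i := hm' i
      rw [Pi.single_eq_same] at hm'i
      have hmi := hm i
      have h2 : (z • ((y i : K i) - m)) * x = (m' : K i) * ((z : K i) *
          ((y i : K i) * (P.1 i) ^ (n - 1) - m * (P.1 i) ^ (n - 1))) +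
          ((z * (y i - (m : 𝓞 (K i))) : 𝓞 (K i)) : K i) *
            (x - m' * (P.1 i) ^ (n - 1)) := by
        rw [Algebra.smul_def]
        have hc : ((z * (y i - (m : 𝓞 (K i))) : 𝓞 (K i)) : K i) =
            (z : K i) * ((y i : K i) - m) := by
          change algebraMap (𝓞 (K i)) (K i) (z * (y i - (m : 𝓞 (K i)))) = _
          rw [map_mul, map_sub, map_intCast]
        rw [hc]
        ring
      rw [h2]
      exact hmemadd i (intCast_mul_mem _ (hsmul i z hmi)) (hsmul i _ hm'i)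
    have h3 : sp ((y i : K i) - m) ≤ L i := by
      calc sp ((y i : K i) - m) = sp ((y i : K i) - m) * A i * (A i)⁻¹ := by
            rw [mul_assoc, mul_inv_cancel₀ (hA0 i), mul_one]
        _ ≤ L i * A i * (A i)⁻¹ := by gcongr
        _ = L i := by rw [mul_assoc, mul_inv_cancel₀ (hA0 i), mul_one]
    rw [← hL0, sp_le] at h3
    rw [mem_coeIdeal] at h3
    obtain ⟨y', hy', hy''⟩ := h3
    have h4 : y' = y i - (m : 𝓞 (K i)) := by
      apply RingOfIntegers.ext
      change algebraMap (𝓞 (K i)) (K i) y' = algebraMap (𝓞 (K i)) (K i) (y i - (m : 𝓞 (K i)))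
      rw [map_sub, map_intCast]
      exact hy''
    rwa [← h4]
  have hpL0 : ∀ i, (p : 𝓞 (K i)) ∈ L0 i := by
    intro i
    have h1 : sp (p : K i) ≤ L i := by
      calc sp (p : K i) = (J i : FI (K i))⁻¹ * (sp (p : K i) * (J i : FI (K i))) := by
            rw [mul_comm (sp (p : K i)), ← mul_assoc, inv_mul_cancel₀ (hJ0 i), one_mul]
        _ ≤ (J i : FI (K i))⁻¹ * C i := by
            gcongr
            exact hpJC i
    rw [← hL0, sp_le, mem_coeIdeal] at h1
    obtain ⟨y', hy', hy''⟩ := h1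
    have h4 : y' = (p : 𝓞 (K i)) := by
      apply RingOfIntegers.ext
      change algebraMap (𝓞 (K i)) (K i) y' = algebraMap (𝓞 (K i)) (K i) (p : 𝓞 (K i))
      rw [map_natCast]
      exact hy''
    rwa [← h4]
  have hcard : ∏ i, Ideal.absNorm (L0 i) ≤ p := by
    have hc1 : ∏ i, Ideal.absNorm (L0 i) = Nat.card (∀ i, (𝓞 (K i)) ⧸ (L0 i)) := by
      rw [Nat.card_pi]
      refine prod_congr rfl fun i _ => ?_
      rw [Ideal.absNorm_apply, Submodule.cardQuot_apply]
    rw [hc1]
    have hsurj : Function.Surjective fun r : Fin p =>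
        ((fun i => Ideal.Quotient.mk (L0 i) ((r : ℕ) : 𝓞 (K i))) :
          ∀ i, (𝓞 (K i)) ⧸ (L0 i)) := by
      intro z
      choose y hy using fun i => Ideal.Quotient.mk_surjective (z i)
      obtain ⟨m, hm⟩ := hOdec y
      have hp0 : (0 : ℤ) < p := by exact_mod_cast hp.pos
      have h0 : 0 ≤ m % p := Int.emod_nonneg _ hp0.ne'
      have h1 : m % p < p := Int.emod_lt_of_pos _ hp0
      refine ⟨⟨(m % p).toNat, by omega⟩, ?_⟩
      funext i
      simp only
      rw [← hy i, Ideal.Quotient.eq]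
      have h2 : ((((m % p).toNat : ℕ) : 𝓞 (K i))) = ((m % p : ℤ) : 𝓞 (K i)) := by
        have : (((m % p).toNat : ℕ) : ℤ) = m % p := Int.toNat_of_nonneg h0
        exact_mod_cast congrArg (Int.cast : ℤ → 𝓞 (K i)) this
      rw [h2]
      have h3 : ((m % p : ℤ) : 𝓞 (K i)) =
          (m : 𝓞 (K i)) - (p : 𝓞 (K i)) * ((m / p : ℤ) : 𝓞 (K i)) := by
        have : m % p = m - p * (m / p) := by rw [Int.emod_def]
        rw [this]; push_cast; ring
      rw [h3]
      have h4 : (m : 𝓞 (K i)) - (p : 𝓞 (K i)) * ((m / p : ℤ) : 𝓞 (K i)) - y i =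
          -(y i - (m : 𝓞 (K i))) - (p : 𝓞 (K i)) * ((m / p : ℤ) : 𝓞 (K i)) := by ring
      rw [h4]
      exact (L0 i).sub_mem ((L0 i).neg_mem (hm i)) ((L0 i).mul_mem_right _ (hpL0 i))
    have := Nat.card_le_card_of_surjective _ hsurj
    rwa [Nat.card_fin] at this
  have h1 : nA C = nA (cf J) * nA L := by
    rw [nA, nA, nA, ← prod_mul_distrib]
    refine prod_congr rfl fun i _ => ?_
    change nm (C i) = nm (J i : FI (K i)) * nm ((J i : FI (K i))⁻¹ * C i)
    rw [nm, nm, nm, ← map_mul, ← mul_assoc, mul_inv_cancel₀ (hJ0 i), one_mul]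
  have h2 : nA L ≤ p := by
    have h2a : nA L = ((∏ i, Ideal.absNorm (L0 i) : ℕ) : ℚ) := by
      rw [nA, Nat.cast_prod]
      refine prod_congr rfl fun i _ => ?_
      rw [← hL0 i, nm, coeIdeal_absNorm]
    rw [h2a]
    exact_mod_cast hcard
  have h3 : 0 < nA (cf J) := by
    rw [nA]
    exact prod_pos fun i _ => nm_pos (hJ0 i)
  have h4 : (p : ℚ) ^ 2 ≤ p := by
    have hC' : (p : ℚ) ^ 2 * nA (cf J) ≤ nA C := hC
    rw [h1] at hC'
    have : (p : ℚ) ^ 2 * nA (cf J) ≤ p * nA (cf J) := by nlinarith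
    exact le_of_mul_le_mul_right this h3
  have h5 : (2 : ℚ) ≤ p := by exact_mod_cast hp.two_le
  nlinarith

end Pool.Agent.Y259.KE
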