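import Pool.Agent.Y714.KE.Glue
import Pool.Agent.Y379.KF.Crt

set_option autoImplicit false
set_option linter.unusedSectionVars false
set_option linter.unusedVariables false
set_option linter.unusedSimpArgs false

/-! helper259, job KE-MIB: points failing at primes of middle size, and the counts with
conditions modulo small primes. -/

namespace Pool.Agent.Y259.KE

open Pool.Agent.Y714.KE
open Finset MeasureTheory Filter Topology

theorem ncard_biUnion_le {α β : Type} (S : Finset β) (f : β → Set α) :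
    (⋃ b ∈ S, f b).ncard ≤ ∑ b ∈ S, (f b).ncard := by
  classical
  induction S using Finset.induction_on with
  | empty => simp
  | insert a S ha ih =>
    rw [Finset.set_biUnion_insert, Finset.sum_insert ha]
    exact (Set.ncard_union_le _ _).trans (Nat.add_le_add_left ih _)

theorem sum_sq_inv_le (Ps : Finset ℕ) (P₀ : ℝ) (h0 : 1 ≤ P₀) (hP : ∀ p ∈ Ps, P₀ < p) :
    ∑ p ∈ Ps, ((p : ℝ) ^ 2)⁻¹ ≤ 2 / P₀ := by
  set k := ⌊P₀⌋₊ with hk
  have hsub : Ps ⊆ Ioo k (Ps.sup id + 1) := by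
    intro p hp
    rw [mem_Ioo]
    constructor
    · have h1 : (k : ℝ) < p := (Nat.floor_le (by linarith)).trans_lt (hP p hp)
      exact_mod_cast h1
    · have : p ≤ Ps.sup id := Finset.le_sup (f := id) hp
      omega
  have h1 := Finset.sum_le_sum_of_subset_of_nonneg (f := fun p : ℕ => ((p : ℝ) ^ 2)⁻¹) hsub
    (fun i _ _ => by positivity)
  have h2 := sum_Ioo_inv_sq_le (α := ℝ) k (Ps.sup id + 1)
  refine h1.trans (h2.trans ?_)
  have h3 : P₀ < (k : ℝ) + 1 := Nat.lt_floor_add_one P₀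
  have h4 : 0 < P₀ := by linarith
  gcongr

/-- products of close factors are close (copy of a lemma of helper714) -/
theorem prod_close (S : Finset ℕ) (M : ℕ → ℝ) (hM : ∀ p, 0 < M p) : ∀ ε : ℝ, 0 < ε →
    ∃ ε' : ℝ, 0 < ε' ∧ ∀ a b : ℕ → ℝ, (∀ p ∈ S, 0 ≤ a p ∧ a p ≤ M p ∧ 0 ≤ b p ∧ b p ≤ M p ∧
      |a p - b p| ≤ ε') → |∏ p ∈ S, a p - ∏ p ∈ S, b p| ≤ ε := by
  classical
  induction S using Finset.induction_on with
  | empty => intro ε hε; exact ⟨1, one_pos, fun a b _ => by simpa using hε.le⟩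
  | insert p S hp ih =>
    intro ε hε
    set Q := ∏ q ∈ S, M q with hQ
    have hQ0 : 0 < Q := prod_pos fun q _ => hM q
    obtain ⟨ε₁, hε₁, h1⟩ := ih (ε / (2 * M p)) (by have := hM p; positivity)
    refine ⟨min ε₁ (ε / (2 * Q)), lt_min hε₁ (by positivity), fun a b hab => ?_⟩
    rw [prod_insert hp, prod_insert hp]
    have h2 := h1 a b fun q hq => by
      obtain ⟨x1, x2, x3, x4, x5⟩ := hab q (mem_insert_of_mem hq)
      exact ⟨x1, x2, x3, x4, x5.trans (min_le_left _ _)⟩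
    obtain ⟨x1, x2, x3, x4, x5⟩ := hab p (mem_insert_self _ _)
    have h3 : |∏ q ∈ S, b q| ≤ Q := by
      rw [Finset.abs_prod, hQ]
      refine Finset.prod_le_prod (fun _ _ => abs_nonneg _) fun q hq => ?_
      obtain ⟨y1, y2, y3, y4, y5⟩ := hab q (mem_insert_of_mem hq)
      rw [abs_of_nonneg y3]; exact y4
    have e : a p * ∏ q ∈ S, a q - b p * ∏ q ∈ S, b q =
        a p * (∏ q ∈ S, a q - ∏ q ∈ S, b q) + (a p - b p) * ∏ q ∈ S, b q := by ring
    rw [e]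
    refine (abs_add_le _ _).trans ?_
    rw [abs_mul, abs_mul, abs_of_nonneg x1]
    have h4 : a p * |∏ q ∈ S, a q - ∏ q ∈ S, b q| ≤ M p * (ε / (2 * M p)) := by
      have := hM p
      gcongr
    have h5 : |a p - b p| * |∏ q ∈ S, b q| ≤ (ε / (2 * Q)) * Q := by
      gcongr
      exact x5.trans (min_le_right _ _)
    have e1 : M p * (ε / (2 * M p)) = ε / 2 := by have := (hM p).ne'; field_simp
    have e2 : (ε / (2 * Q)) * Q = ε / 2 := by field_simp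
    linarith

theorem mib (h : S_BOX) : S_MIB := by
  classical
  intro ι _ D C hD hcard
  obtain ⟨R, hR⟩ := hD.subset_closedBall (0 : ι → ℝ)
  obtain ⟨C₁, hC₁, hbox⟩ := h ι (max R 1) (by positivity)
  refine ⟨2 * C₁ * (|C| + 1), by positivity, ?_⟩
  intro T hT P₀ X Y hP₀ hX hY
  have hprodY : 0 < ∏ i, Y i := prod_pos fun i _ => hY i
  set Ps := (Finset.range (⌊X⌋₊ + 1)).filter (fun p : ℕ => p.Prime ∧ P₀ < p) with hPs
  set bad : ℕ → Set (ι → ℤ) := fun p => {z : ι → ℤ | (∀ i, |(z i : ℝ)| ≤ max R 1 * Y i) ∧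
    (fun i => (z i : ZMod p)) ∈ (T p)ᶜ} with hbad
  have hsub : {z : ι → ℤ | (fun i => (z i : ℝ) / Y i) ∈ D ∧ ∃ p : ℕ, p.Prime ∧ P₀ < p ∧
      (p : ℝ) ≤ X ∧ (fun i => (z i : ZMod p)) ∉ T p} ⊆ ⋃ p ∈ Ps, bad p := by
    rintro z ⟨hz, p, hp, hp1, hp2, hp3⟩
    simp only [Set.mem_iUnion]
    refine ⟨p, ?_, ?_, hp3⟩
    · rw [hPs, mem_filter, mem_range]
      exact ⟨Nat.lt_succ_of_le (Nat.le_floor hp2), hp, hp1⟩
    · intro i
      have h1 := hR hz
      rw [mem_closedBall_zero_iff] at h1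
      have h2 := (norm_le_pi_norm (fun i => (z i : ℝ) / Y i) i).trans h1
      rw [Real.norm_eq_abs, abs_div, abs_of_pos (hY i), div_le_iff₀ (hY i)] at h2
      refine h2.trans ?_
      have := hY i
      gcongr
      exact le_max_left _ _
  have hle : ∀ p ∈ Ps, (p : ℝ) ≤ X := by
    intro p hp
    rw [hPs, mem_filter, mem_range] at hp
    have h1 : p ≤ ⌊X⌋₊ := by omega
    have h2 : (0 : ℝ) ≤ X := by
      by_contra hneg
      have : ⌊X⌋₊ = 0 := Nat.floor_of_nonpos (by linarith)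
      have h3 := hp.2.1.pos
      omega
    exact (Nat.le_floor_iff h2).1 h1
  have hfin : (⋃ p ∈ Ps, bad p).Finite := by
    refine Set.Finite.biUnion (Finset.finite_toSet Ps) fun p hp => ?_
    have hp' : p ∈ Ps := hp
    have hpp := (mem_filter.1 hp').2.1
    exact (hbox p hpp.one_le Y (fun i => (hle p hp').trans (hX i)) (T p)ᶜ).1
  have h1 : ({z : ι → ℤ | (fun i => (z i : ℝ) / Y i) ∈ D ∧ ∃ p : ℕ, p.Prime ∧ P₀ < p ∧
      (p : ℝ) ≤ X ∧ (fun i => (z i : ZMod p)) ∉ T p}.ncard : ℝ) ≤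
      ∑ p ∈ Ps, ((bad p).ncard : ℝ) := by
    have h2 := (Set.ncard_le_ncard hsub hfin).trans (ncard_biUnion_le Ps bad)
    exact_mod_cast h2
  have h2 : ∀ p ∈ Ps, ((bad p).ncard : ℝ) ≤ C₁ * (|C| + 1) * (∏ i, Y i) * ((p : ℝ) ^ 2)⁻¹ := by
    intro p hp
    have hpp := (mem_filter.1 hp).2.1
    have hp0 : (0 : ℝ) < p := by exact_mod_cast hpp.pos
    have h3 := (hbox p hpp.one_le Y (fun i => (hle p hp).trans (hX i)) (T p)ᶜ).2
    refine h3.trans ?_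
    have h4 : ((T p)ᶜ.ncard : ℝ) ≤ (|C| + 1) * (p : ℝ) ^ (Fintype.card ι - 2) := by
      refine (hT p hpp).trans ?_
      gcongr
      linarith [le_abs_self C]
    have h5 : ∏ i, (Y i / (p : ℝ)) = (∏ i, Y i) / (p : ℝ) ^ Fintype.card ι := by
      rw [prod_div_distrib, prod_const, card_univ]
    rw [h5]
    calc C₁ * ((T p)ᶜ.ncard : ℝ) * ((∏ i, Y i) / (p : ℝ) ^ Fintype.card ι)
        ≤ C₁ * ((|C| + 1) * (p : ℝ) ^ (Fintype.card ι - 2)) *
          ((∏ i, Y i) / (p : ℝ) ^ Fintype.card ι) := by gcongr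
      _ = C₁ * (|C| + 1) * (∏ i, Y i) *
          ((p : ℝ) ^ (Fintype.card ι - 2) / (p : ℝ) ^ Fintype.card ι) := by ring
      _ = C₁ * (|C| + 1) * (∏ i, Y i) * ((p : ℝ) ^ 2)⁻¹ := by
          congr 1
          have h6 : (p : ℝ) ^ Fintype.card ι = (p : ℝ) ^ (Fintype.card ι - 2) * (p : ℝ) ^ 2 := by
            rw [← pow_add]; congr 1; omega
          rw [h6]
          field_simp
  refine h1.trans ((sum_le_sum h2).trans ?_)
  rw [← mul_sum]
  have h7 := sum_sq_inv_le Ps P₀ hP₀ (fun p hp => (mem_filter.1 hp).2.2)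
  calc C₁ * (|C| + 1) * (∏ i, Y i) * ∑ p ∈ Ps, ((p : ℝ) ^ 2)⁻¹
      ≤ C₁ * (|C| + 1) * (∏ i, Y i) * (2 / P₀) := by gcongr
    _ = 2 * C₁ * (|C| + 1) * (∏ i, Y i) / P₀ := by ring

theorem eun (h : S_LPC) : S_EUN := by
  classical
  intro ι _ D Ys G Lc T hD hopen hfr hG hLc P₀ η hη
  set S := (Finset.range (P₀ + 1)).filter Nat.Prime with hS
  have hSp : ∀ p ∈ S, p.Prime := fun p hp => (mem_filter.1 hp).2
  obtain ⟨U, hU, hUc⟩ := Pool.Agent.Y379.KF.crt ι S hSp T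
  have hq : 0 < ∏ p ∈ S, p := prod_pos fun p hp => (hSp p hp).pos
  obtain ⟨L, hL, hlim⟩ := h ι D hD hopen.measurableSet hfr _ hq U η hη
  refine ⟨L, hL, fun Y hY hLY => ?_⟩
  have hYp : ∀ i, 0 < Y i := fun i => hL.trans_le (hLY i)
  have h1 := hlim Y hLY
  have h2 : {z : ι → ℤ | (fun i => (z i : ℝ) / Y i) ∈ D ∧
      ∀ p : ℕ, p.Prime → p ≤ P₀ → Lc p z} =
      {z : ι → ℤ | (fun i => (z i : ZMod (∏ p ∈ S, p))) ∈ U ∧
        (fun i => (z i : ℝ) / Y i) ∈ D} := by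
    ext z
    simp only [Set.mem_ofPred_eq]
    constructor
    · rintro ⟨hz, hz2⟩
      refine ⟨(hU z).2 fun p hp => ?_, hz⟩
      have hp' := mem_filter.1 hp
      exact (hLc p hp'.2 z (hG Y hY z hYp hz)).1
        (hz2 p hp'.2 (by have := mem_range.1 hp'.1; omega))
    · rintro ⟨hz1, hz⟩
      refine ⟨hz, fun p hp hpP => ?_⟩
      exact (hLc p hp z (hG Y hY z hYp hz)).2
        ((hU z).1 hz1 p (mem_filter.2 ⟨mem_range.2 (by omega), hp⟩))
  rw [h2]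
  have h3 : volume.real D * ∏ p ∈ S, ((T p).ncard : ℝ) / (p : ℝ) ^ Fintype.card ι =
      volume.real D * U.ncard / ((∏ p ∈ S, p : ℕ) : ℝ) ^ Fintype.card ι := by
    rw [prod_div_distrib, hUc, prod_pow, mul_div_assoc]
    push_cast
    rfl
  rw [h3]
  exact h1

theorem etw (h : S_ELM) : S_ETW := by
  classical
  intro ι _ D Ψ a Ys G Lc T S₀ φ hD hopen hfr hΨc hΨp hΨl ha hS₀ hG hLc hφb hφc P₀ hP₀ η hη
  set S := (Finset.range (P₀ + 1)).filter Nat.Prime with hS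
  have hSp : ∀ p ∈ S, p.Prime := fun p hp => (mem_filter.1 hp).2
  have hS₀S : ∀ p ∈ S₀, p ∈ S := fun p hp =>
    mem_filter.2 ⟨mem_range.2 (by have := hP₀ p hp; omega), hS₀ p hp⟩
  -- bounds of the factors
  have hbf : ∃ mf Mf : ℕ → ℝ, (∀ p, 0 < mf p) ∧ (∀ p, 0 < Mf p) ∧ ∀ p ∈ S₀, ∀ z, G z →
      mf p ≤ φ p z ∧ φ p z ≤ Mf p := by
    have h1 : ∀ p : ℕ, ∃ m M : ℝ, 0 < m ∧ 0 < M ∧ (p ∈ S₀ → ∀ z, G z →
        m ≤ φ p z ∧ φ p z ≤ M) := by
      intro p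
      by_cases hp : p ∈ S₀
      · obtain ⟨m', M', hm', h'⟩ := hφb p hp
        exact ⟨m', max M' 1, hm', by positivity, fun _ z hz =>
          ⟨(h' z hz).1, (h' z hz).2.trans (le_max_left _ _)⟩⟩
      · exact ⟨1, 1, one_pos, one_pos, fun h => absurd h hp⟩
    choose mf Mf h2 h3 h4 using h1
    exact ⟨mf, Mf, h2, h3, fun p hp => h4 p hp⟩
  obtain ⟨mf, Mf, hmf, hMf, hbf⟩ := hbf
  obtain ⟨ε, hε, helm⟩ := h ι D Ψ (∏ p ∈ S₀, mf p) (∏ p ∈ S₀, Mf p) a hD hopen hfr hΨc hΨp hΨl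
    (prod_pos fun p _ => hmf p) ha η hη
  obtain ⟨ε', hε', hclose⟩ := prod_close S₀ Mf hMf ε hε
  have hk : ∃ k : ℕ → ℕ, ∀ p ∈ S₀, ∀ z z' : ι → ℤ, G z → G z' → Lc p z → Lc p z' →
      (∀ i, ((p : ℤ) ^ k p) ∣ z i - z' i) → |φ p z - φ p z'| ≤ ε' := by
    have h1 : ∀ p : ℕ, ∃ k : ℕ, p ∈ S₀ → ∀ z z' : ι → ℤ, G z → G z' → Lc p z → Lc p z' →
        (∀ i, ((p : ℤ) ^ k) ∣ z i - z' i) → |φ p z - φ p z'| ≤ ε' := by
      intro p
      by_cases hp : p ∈ S₀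
      · obtain ⟨k, hk⟩ := hφc p hp ε' hε'
        exact ⟨k, fun _ => hk⟩
      · exact ⟨0, fun h => absurd h hp⟩
    choose k h2 using h1
    exact ⟨k, fun p hp => h2 p hp⟩
  obtain ⟨kf, hkf⟩ := hk
  set k := ∑ p ∈ S₀, kf p + 1 with hkdef
  set q := (∏ p ∈ S, p) ^ k with hq
  have hq0 : 0 < q := pow_pos (prod_pos fun p hp => (hSp p hp).pos) _
  have hpq : ∀ p ∈ S, p ∣ q := fun p hp =>
    (Finset.dvd_prod_of_mem _ hp).trans (dvd_pow_self _ (by omega))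
  have hpkq : ∀ p ∈ S₀, p ^ kf p ∣ q := fun p hp => by
    refine (pow_dvd_pow_of_dvd (Finset.dvd_prod_of_mem _
      (hS₀S p hp)) (kf p)).trans (pow_dvd_pow _ ?_)
    have := Finset.single_le_sum (f := kf) (fun _ _ => Nat.zero_le _) hp
    omega
  have hcongr : ∀ (z z' : ι → ℤ),
      (∀ i, (z i : ZMod q) = (z' i : ZMod q)) → ∀ d : ℕ, d ∣ q → ∀ i, (d : ℤ) ∣ z i - z' i := by
    intro z z' h d hd i
    have h1 := (ZMod.intCast_eq_intCast_iff_dvd_sub (z i) (z' i) q).1 (h i)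
    have h2 : (q : ℤ) ∣ z i - z' i := by rw [← neg_sub]; exact (dvd_neg).2 h1
    exact (Int.natCast_dvd_natCast.2 hd).trans h2
  set U : Set (ι → ZMod q) :=
    {t | ∃ z : ι → ℤ, (fun i => (z i : ZMod q)) = t ∧
      ∀ p ∈ S, (fun i => (z i : ZMod p)) ∈ T p} with hU
  have hUiff : ∀ z : ι → ℤ,
      (fun i => (z i : ZMod q)) ∈ U ↔ ∀ p ∈ S, (fun i => (z i : ZMod p)) ∈ T p := by
    intro z
    constructor
    · rintro ⟨z', hz', h⟩ p hp
      have h1 := hcongr z z' (fun i => (congrFun hz' i).symm) p (hpq p hp)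
      have : (fun i => (z i : ZMod p)) = fun i => (z' i : ZMod p) := by
        funext i
        refine (ZMod.intCast_eq_intCast_iff_dvd_sub (z i) (z' i) p).2 ?_
        rw [← neg_sub]; exact (dvd_neg).2 (h1 i)
      rw [this]
      exact h p hp
    · exact fun h => ⟨z, rfl, h⟩
  obtain ⟨ℓ, L, hL0, hL⟩ := helm q hq0 U (fun z => G z ∧ ∀ p ∈ S₀, Lc p z)
    (fun z => ∏ p ∈ S₀, φ p z) Ys
    (fun Y hY z hYp hzU hzD => by
      have hg := hG Y hY z hYp hzD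
      exact ⟨hg, fun p hp => (hLc p (hS₀ p hp) z hg).2 ((hUiff z).1 hzU p (hS₀S p hp))⟩)
    (fun z hz _ => by
      refine ⟨Finset.prod_le_prod (fun p _ => (hmf p).le) fun p hp => (hbf p hp z hz.1).1,
        Finset.prod_le_prod (fun p hp => (hmf p).le.trans (hbf p hp z hz.1).1)
          fun p hp => (hbf p hp z hz.1).2⟩)
    (fun z z' hz hz' hzU hzz' => by
      refine hclose _ _ fun p hp => ⟨(hmf p).le.trans (hbf p hp z hz.1).1, (hbf p hp z hz.1).2,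
        (hmf p).le.trans (hbf p hp z' hz'.1).1, (hbf p hp z' hz'.1).2, ?_⟩
      refine hkf p hp z z' hz.1 hz'.1 (hz.2 p hp) (hz'.2 p hp) fun i => ?_
      have := hcongr z z' hzz' (p ^ kf p) (hpkq p hp) i
      push_cast at this
      exact this)
  refine ⟨ℓ, L, hL0, fun Y hY hLY => ?_⟩
  have hYp : ∀ i, 0 < Y i := fun i => hL0.trans_le (hLY i)
  have h1 := hL Y hY hLY
  have h2 : {z : ι → ℤ | (fun i => (z i : ℝ) / Y i) ∈ D ∧
      (∀ p : ℕ, p.Prime → p ≤ P₀ → Lc p z) ∧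
      Ψ (fun i => (z i : ℝ) / Y i) * ∏ p ∈ S₀, φ p z ≤ a} =
      {z : ι → ℤ | (fun i => (z i : ZMod q)) ∈ U ∧ (fun i => (z i : ℝ) / Y i) ∈ D ∧
        Ψ (fun i => (z i : ℝ) / Y i) * ∏ p ∈ S₀, φ p z ≤ a} := by
    ext z
    simp only [Set.mem_ofPred_eq]
    constructor
    · rintro ⟨hz, hz2, hz3⟩
      refine ⟨(hUiff z).2 fun p hp => ?_, hz, hz3⟩
      have hp' := mem_filter.1 hp
      exact (hLc p hp'.2 z (hG Y hY z hYp hz)).1
        (hz2 p hp'.2 (by have := mem_range.1 hp'.1; omega))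
    · rintro ⟨hz1, hz, hz3⟩
      refine ⟨hz, fun p hp hpP => ?_, hz3⟩
      exact (hLc p hp z (hG Y hY z hYp hz)).2
        ((hUiff z).1 hz1 p (mem_filter.2 ⟨mem_range.2 (by omega), hp⟩))
  rw [h2]
  exact h1

end Pool.Agent.Y259.KE
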